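import Pool.Agent.SHP.Stmts

/-!
# MP_d2d93c_nt, squad SHP, row FR1: far from the diagonal, `B^y < C^x`
-/

set_option autoImplicit false

namespace Pool.Agent.SHP.H56

theorem fr1 (hF1b : F1bStmt) (hF1r : F1rStmt) : Fr1Stmt := by
  intro f g x y z hg hco hodd hf hx hy hz hlt heq
  obtain ⟨hxz, hb⟩ := hF1b f g x y z hg hco hodd hf hx hy hz hlt heq
  have h12 : 10 ^ 12 * g ^ 2 ≤ f := by
    have h1 : (10 * g) ^ 12 = 10 ^ 12 * g ^ 12 := by ring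
    have h2 : g ^ 2 ≤ g ^ 12 := Nat.pow_le_pow_right hg (by norm_num)
    exact le_trans (Nat.mul_le_mul_left _ h2) (h1 ▸ hf)
  have hg2 : 1 ≤ g ^ 2 := Nat.one_le_pow _ _ hg
  have hgg : g ≤ g ^ 2 := by nlinarith
  have hgf : g < f := by omega
  have hfpos : 0 < f := by omega
  have hgf2 : g ^ 2 < f ^ 2 := Nat.pow_lt_pow_left hgf (by norm_num)
  obtain ⟨A, hA⟩ : ∃ A, A = f ^ 2 - g ^ 2 := ⟨_, rfl⟩
  obtain ⟨B, hB⟩ : ∃ B, B = 2 * f * g := ⟨_, rfl⟩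
  obtain ⟨C, hC⟩ : ∃ C, C = f ^ 2 + g ^ 2 := ⟨_, rfl⟩
  rw [← hA, ← hB, ← hC] at hb
  rw [← hB, ← hC] at hlt
  have heq' := heq
  rw [← hA, ← hB, ← hC] at heq'
  have hAf : A + g ^ 2 = f ^ 2 := by omega
  have hff : f ≤ f ^ 2 := by nlinarith
  have hA8 : 8 ≤ A := by omega
  have hApos : 0 < A := by omega
  have hBpos : 0 < B := by rw [hB]; positivity
  have hCpos : 0 < C := by omega
  -- reals
  have hAR : (0 : ℝ) < (A : ℝ) := by exact_mod_cast hApos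
  have hA8R : (8 : ℝ) ≤ (A : ℝ) := by exact_mod_cast hA8
  have hfR : (0 : ℝ) < (f : ℝ) := by exact_mod_cast hfpos
  have hg2R : (1 : ℝ) ≤ (g : ℝ) ^ 2 := by exact_mod_cast hg2
  have hBR : (0 : ℝ) < (B : ℝ) := by exact_mod_cast hBpos
  have hCR : (0 : ℝ) < (C : ℝ) := by exact_mod_cast hCpos
  have hCf : (C : ℝ) = (f : ℝ) ^ 2 + (g : ℝ) ^ 2 := by rw [hC]; push_cast; ring
  have hAfR : (A : ℝ) + (g : ℝ) ^ 2 = (f : ℝ) ^ 2 := by exact_mod_cast hAf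
  have hBf : (B : ℝ) = 2 * f * g := by rw [hB]; push_cast; ring
  have h12R : (10 : ℝ) ^ 12 * (g : ℝ) ^ 2 ≤ f := by exact_mod_cast h12
  have hf12 : (10 : ℝ) ^ 12 ≤ f := by nlinarith
  have hxR : (1 : ℝ) ≤ (x : ℝ) := by exact_mod_cast hx
  have hl2 := Real.log_two_gt_d9
  have hl2' := Real.log_two_lt_d9
  -- τ
  obtain ⟨τ, hτ⟩ : ∃ τ : ℝ, τ = 2 * (g : ℝ) ^ 2 / A := ⟨_, rfl⟩
  have hτ0 : 0 < τ := by rw [hτ]; positivity
  have hfA : (f : ℝ) ^ 2 ≤ 2 * A := by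
    have h1 : (g : ℝ) ^ 2 * 2 ≤ (f : ℝ) ^ 2 := by nlinarith
    linarith
  have hτ1 : τ * ((10 : ℝ) ^ 12 * f) ≤ 4 := by
    rw [hτ, div_mul_eq_mul_div, div_le_iff₀ hAR]
    have h1 : (10 : ℝ) ^ 12 * (g : ℝ) ^ 2 * f ≤ f * f := mul_le_mul_of_nonneg_right h12R hfR.le
    nlinarith
  have hlogCA : Real.log C ≤ Real.log A + τ := by
    have h1 : (C : ℝ) = A * (1 + τ) := by
      rw [hτ, mul_add, mul_one, mul_div_cancel₀ _ hAR.ne', hCf, ← hAfR]
      ring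
    rw [h1, Real.log_mul hAR.ne' (by positivity)]
    have h2 := Real.log_le_sub_one_of_pos (x := 1 + τ) (by positivity)
    linarith
  obtain ⟨L, hL⟩ : ∃ L : ℝ, L = Real.log A := ⟨_, rfl⟩
  have hL2 : 2 ≤ L := by
    have h1 : Real.log 8 ≤ Real.log A := Real.log_le_log (by norm_num) hA8R
    have h2 : Real.log 8 = 3 * Real.log 2 := by
      rw [show (8 : ℝ) = 2 ^ 3 by norm_num, Real.log_pow]
      norm_num
    rw [hL]
    linarith
  obtain ⟨κ, rfl⟩ : ∃ κ, z = x + κ := ⟨z - x, by omega⟩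
  have hκx : x + κ - x = κ := by omega
  rw [hκx] at hb
  have hκ1 : (1 : ℝ) ≤ (κ : ℝ) := by
    have : 1 ≤ κ := by omega
    exact_mod_cast this
  have hκL : (κ : ℝ) * L ≤ Real.log 2 + x * τ := by
    have h1 : A ^ (x + κ) ≤ 2 * C ^ x := by omega
    have h2 : (A : ℝ) ^ (x + κ) ≤ 2 * (C : ℝ) ^ x := by exact_mod_cast h1
    have h3 := Real.log_le_log (by positivity) h2
    rw [Real.log_pow, Real.log_mul two_ne_zero (by positivity), Real.log_pow] at h3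
    push_cast at h3
    have h4 : (x : ℝ) * Real.log C ≤ x * (Real.log A + τ) :=
      mul_le_mul_of_nonneg_left hlogCA (by positivity)
    rw [← hL] at h3 h4
    nlinarith
  have hxτ : 1 ≤ x * τ := by nlinarith
  -- x is large
  have hxbig : (10 : ℝ) ^ 12 * f ≤ 4 * x := by
    have h1 : (10 : ℝ) ^ 12 * (f : ℝ) * ((x : ℝ) * τ) ≤ 4 * (x : ℝ) := by
      have h0 : (x : ℝ) * (τ * ((10 : ℝ) ^ 12 * (f : ℝ))) ≤ (x : ℝ) * 4 :=
        mul_le_mul_of_nonneg_left hτ1 (by positivity)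
      linarith
    have h2 : (10 : ℝ) ^ 12 * f * 1 ≤ (10 : ℝ) ^ 12 * f * (x * τ) :=
      mul_le_mul_of_nonneg_left hxτ (by positivity)
    linarith
  -- y
  obtain ⟨n, hn⟩ : ∃ n, n = y / 4 := ⟨_, rfl⟩
  rw [← hn] at hb
  have hyn : y ≤ 4 * n + 3 := by omega
  have hnb : (n : ℝ) * (4 / 10) ≤ Real.log 2 + 4 * (κ * L) := by
    have h1 : (B : ℝ) ^ (4 * n) ≤ 2 * (A : ℝ) ^ (4 * κ) * 8 ^ n * (C : ℝ) ^ (2 * n) := by
      exact_mod_cast hb
    have h2 := Real.log_le_log (by positivity) h1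
    rw [Real.log_mul (by positivity) (by positivity), Real.log_mul (by positivity) (by positivity),
      Real.log_mul (by positivity) (by positivity), Real.log_pow, Real.log_pow, Real.log_pow,
      Real.log_pow] at h2
    push_cast at h2
    have h3 : (19 / 10 : ℝ) * 8 * (C : ℝ) ^ 2 ≤ (B : ℝ) ^ 4 := by
      have h4 : (C : ℝ) ≤ 1001 / 1000 * (f : ℝ) ^ 2 := by
        rw [hCf]
        nlinarith
      have h5 : (C : ℝ) ^ 2 ≤ (1001 / 1000 * (f : ℝ) ^ 2) ^ 2 := by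
        apply pow_le_pow_left₀ hCR.le h4
      have h6 : (B : ℝ) ^ 4 = 16 * (f : ℝ) ^ 4 * ((g : ℝ) ^ 2) ^ 2 := by
        rw [hBf]
        ring
      have h7 : (1 : ℝ) ≤ ((g : ℝ) ^ 2) ^ 2 := one_le_pow₀ hg2R
      have h8 : (0 : ℝ) ≤ (f : ℝ) ^ 4 := by positivity
      rw [h6]
      nlinarith
    have h9 := Real.log_le_log (by positivity) h3
    rw [Real.log_mul (by positivity) (by positivity), Real.log_mul (by positivity) (by positivity),
      Real.log_pow, Real.log_pow] at h9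
    push_cast at h9
    have h10 := Real.one_sub_inv_le_log_of_pos (x := (19 / 10 : ℝ)) (by norm_num)
    have h11 : (4 / 10 : ℝ) ≤ 1 - (19 / 10 : ℝ)⁻¹ := by norm_num
    have h12 : (n : ℝ) * (4 / 10 + Real.log 8 + 2 * Real.log C) ≤ n * (4 * Real.log B) :=
      mul_le_mul_of_nonneg_left (by linarith) (by positivity)
    rw [← hL] at h2
    nlinarith
  have hy : (y : ℝ) ≤ 39 + 40 * (x * τ) := by
    have h1 : (y : ℝ) ≤ 4 * n + 3 := by exact_mod_cast hyn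
    nlinarith
  have hκ : (κ : ℝ) ≤ 1 + x * τ := by nlinarith
  -- m
  obtain ⟨q, hq⟩ : ∃ q : ℕ, q = 20 * g ^ 2 * x / f := ⟨_, rfl⟩
  obtain ⟨m, hm⟩ : ∃ m : ℕ, m = q + 1 := ⟨_, rfl⟩
  have hm1 : 1 ≤ m := by omega
  have hm2 : 20 * g ^ 2 * x ≤ f * m := by
    rw [hm, hq]
    exact (Nat.lt_mul_div_succ _ hfpos).le
  have hm3 : (m : ℝ) * 10 ^ 10 ≤ x + 10 ^ 10 := by
    have h2 : q * f ≤ 20 * g ^ 2 * x := by
      rw [hq]
      exact Nat.div_mul_le_self _ _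
    have h2R : (q : ℝ) * f ≤ 20 * (g : ℝ) ^ 2 * x := by exact_mod_cast h2
    have h3 : (q : ℝ) * 10 ^ 10 * f ≤ x * f := by
      have h4 : (20 * 10 ^ 10 * (g : ℝ) ^ 2) * x ≤ f * x := by
        apply mul_le_mul_of_nonneg_right _ (by positivity)
        linarith
      linarith
    have h5 : (q : ℝ) * 10 ^ 10 ≤ x := le_of_mul_le_mul_right h3 hfR
    rw [hm]
    push_cast
    linarith
  have hxτs : x * τ * 10 ^ 12 ≤ 4 * x := by
    have h1 : x * (τ * ((10 : ℝ) ^ 12 * f)) ≤ x * 4 :=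
      mul_le_mul_of_nonneg_left hτ1 (by positivity)
    have h2 : (1 : ℝ) ≤ f := by linarith
    have h3 : x * τ * 10 ^ 12 * 1 ≤ x * τ * 10 ^ 12 * f :=
      mul_le_mul_of_nonneg_left h2 (by positivity)
    nlinarith
  have hfin : (2 * m + κ + y + 1 : ℝ) ≤ x := by
    have h1 : (10 : ℝ) ^ 24 ≤ 4 * x := by nlinarith
    norm_num at h1 hm3 hxτs ⊢
    linarith
  have hfin' : 2 * m + κ + y + 1 ≤ x := by exact_mod_cast hfin
  refine hF1r f g x y (x + κ) m hg hf hx (by assumption) hxz hm1 (by omega) hm2 heq ?_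
  rw [hκx]
  exact hfin'

end Pool.Agent.SHP.H56
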